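import Pool.Agent.helper20.VVO.Spec2
import Pool.Agent.helper43.ISA.PUB
import Pool.Agent.helper53.PB.DNF
import Pool.Agent.helper79.PB.CLP
import Pool.Agent.helper32.PB.CMP
import Pool.Agent.helper30.PB.SUB
import Pool.Agent.helper97.PB.APP

/-!
# MP_069684, project VVO, second part, row NPX (all lengths, nondeterministic circuits, all `m`, short witnesses)
-/

set_option autoImplicit false

open Filter Topology

namespace Pool.Agent.VVO

open Pool.Agent.PB Pool.Agent.ISO Pool.Agent.ISA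

/-- a design for fewer elements is a design for more elements -/
theorem NPX_dsg {M R m m' : ℕ} {A : Set ℕ} {p : ℝ} {K : Fin M → Finset (Fin R)} (hm : m ≤ m') (h : Dsg m A p K) : Dsg m' A p K :=
  ⟨fun e => ⟨(h.1 e).1, (h.1 e).2.trans hm⟩, h.2⟩

/-- pruning by deterministic circuits is pruning by nondeterministic circuits -/
theorem NPX_prun (hNCL : NCL_stmt) {n w m B : ℕ} {A : Set ℕ} {p : ℝ} {f : BF (n + w)} (h : Prun m A p B f) : PrunN m A p B f := by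
  obtain ⟨k, W, h1, h2, h3, h4, h5⟩ := h
  exact ⟨k, W, h1, h2, fun i => hNCL.1 _ _ _ (h3 i), h4, h5⟩

/-- the bound in the second case -/
theorem NPX_est (n N w k c2 j B G : ℕ) (hN2 : 2 ≤ N) (hnN : n ≤ N) (hc2 : c2 ≤ N) (hj : j ≤ N) (hkw : k + k * w ≤ N)
    (hB : B = N ^ c2 + c2) (hG : G = N ^ 2) :
    B + N + (k + k * w) + n + j + G + 2 ≤ N ^ (c2 + 6) := by
  have h1 : N ^ c2 ≤ N ^ (c2 + 2) := Nat.pow_le_pow_right (by omega) (by omega)
  have h2 : N ^ 2 ≤ N ^ (c2 + 2) := Nat.pow_le_pow_right (by omega) (by omega)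
  have h3 : 16 * N ^ (c2 + 2) ≤ N ^ (c2 + 6) := by
    have : N ^ (c2 + 6) = N ^ 4 * N ^ (c2 + 2) := by ring
    rw [this]
    exact Nat.mul_le_mul_right _ (by
      calc 16 = 2 ^ 4 := by norm_num
        _ ≤ N ^ 4 := Nat.pow_le_pow_left hN2 _)
  have h4 : N ≤ N ^ (c2 + 2) := by
    calc N = N ^ 1 := (pow_one N).symm
      _ ≤ N ^ (c2 + 2) := Nat.pow_le_pow_right (by omega) (by omega)
  subst hB hG
  omega

theorem NPX (hLEN : LEN_stmt) (hUNS : UNS_stmt) (hLVS : ISO.LVS_stmt) (hCOR : ISA.COR_stmt) (hSVS : SVS_stmt) (hONN : ONN_stmt) (hNCL : NCL_stmt) (hCIR : ISO.CIR_stmt) : NPX_stmt := by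
  have hDNF : DNF_stmt :=
    Pool.Agent.PB.DNF (Pool.Agent.PB.CLP (Pool.Agent.PB.CMP Pool.Agent.PB.APP Pool.Agent.PB.SUB))
  intro ε j m μ p hε hε1 hj hm hμ hev1 hev2 hAll c
  obtain ⟨a, n0, ha, hlen⟩ := hLEN ε j hε hε1 hj c
  obtain ⟨c2, hc2⟩ := hUNS m (fun _ => Set.Icc 1 j) p hAll (8 * (c + 5))
  obtain ⟨N0, hN0⟩ := eventually_atTop.1 (hev1.and hev2)
  obtain ⟨S, hS⟩ := PUB_fin hDNF (N0 + c + c2 + j + 2 + n0)
  refine ⟨S + a * (c2 + c + 7) * 10 + 1 + a * (c2 + 6) * 30, fun n w f hw hf => ?_⟩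
  by_cases hn : n < N0 + c + c2 + j + 2 + n0
  · refine ⟨fun x => decide (wit f x = 0), hNCL.2.1 n S _ _ (hNCL.1 n S _ (hS n hn _)) ?_, fun x hx => ?_, fun x hx => ?_⟩
    · omega
    · simp [hx]
    · simp [hx]
  · have hn2 : 2 ≤ n := by omega
    have hnN : n ≤ n ^ a := by
      calc n = n ^ 1 := (pow_one n).symm
        _ ≤ n ^ a := Nat.pow_le_pow_right (by omega) ha
    obtain ⟨hlog, hcrit⟩ := hN0 (n ^ a) (by omega)
    have hM1 : 1 ≤ min (m (n ^ a)) (μ (n ^ a)) := le_min (hm _) (hμ _)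
    have hMm : min (m (n ^ a)) (μ (n ^ a)) ≤ m (n ^ a) := min_le_left _ _
    have hMμ : min (m (n ^ a)) (μ (n ^ a)) ≤ μ (n ^ a) := min_le_right _ _
    have hlogM : Real.log ((min (m (n ^ a)) (μ (n ^ a)) : ℕ) : ℝ) ≤ ((n ^ a : ℕ) : ℝ) ^ (1 - ε) := by
      refine le_trans (Real.log_le_log ?_ ?_) hlog
      · exact_mod_cast hM1
      · exact_mod_cast hMμ
    rcases hlen n w (n ^ a) (min (m (n ^ a)) (μ (n ^ a))) (p (n ^ a)) (by omega) hw rfl hM1 hlogM hcrit with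
      ⟨M', R, K, hM'1, h, hRw, hD⟩ | ⟨k, l, hl1, hlk, hch, h, hkw, hsum⟩
    · have hM'N : M' ≤ n ^ a := (Nat.le_mul_of_pos_right M' (by omega)).trans h
      have hRN : R ≤ n ^ a := by omega
      obtain ⟨e1, e2⟩ := PUB_est1 n (n ^ a) w M' R c (n ^ c + c) hn2 (by omega) hnN hw rfl hM'N hRN
      have e3 := PUB_est2 (n ^ a) w M' R c c2 (hn2.trans hnN) (by omega) e1
      have hP : Prun (m (n ^ a)) (Set.Icc 1 j) (p (n ^ a)) ((n ^ a) ^ c2 + c2) (listV f (n ^ a) h K) := by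
        apply hc2
        · exact hRw
        · refine PUB_mono (hLVS n w M' R (n ^ a) (n ^ c + c) ((n ^ a) ^ (c + 5)) f h K hf e2) ?_
          rw [← pow_mul, mul_comm (c + 5) 8]
          exact Nat.le_add_right _ _
      obtain ⟨D, hD1, hD2, hD3⟩ := hCOR n w M' R (n ^ a) (m (n ^ a)) ((n ^ a) ^ c2 + c2)
        ((n ^ a) ^ (c2 + c + 7)) (Set.Icc 1 j) (p (n ^ a)) f h K hM'1 (NPX_dsg hMm hD) hP e3
      refine ⟨fun x => !(D x), hNCL.2.1 n _ _ _ (hNCL.1 n _ _ (hCIR.2.2.2.1 n _ D hD1)) ?_, fun x hx => ?_, fun x hx => ?_⟩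
      · rw [← pow_mul, ← pow_mul, ← mul_assoc]
        have hle : n ^ (a * (c2 + c + 7) * 10) ≤ n ^ (S + a * (c2 + c + 7) * 10 + 1 + a * (c2 + 6) * 30) :=
          Nat.pow_le_pow_right (by omega) (by omega)
        omega
      · simp [hD2 x hx]
      · simp [hD3 x hx]
    · have hkN : k ≤ n ^ a := by omega
      obtain ⟨e1, e2⟩ := PUB_est1 n (n ^ a) w k k c (n ^ c + c) hn2 (by omega) hnN hw rfl hkN hkN
      have hP : Prun (m (n ^ a)) (Set.Icc 1 j) (p (n ^ a)) ((n ^ a) ^ c2 + c2) (subV f (n ^ a) l h) := by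
        apply hc2
        · exact hkw
        · refine PUB_mono (hSVS n w k (n ^ a) l (n ^ c + c) ((n ^ a) ^ (c + 5)) f h hf ?_) ?_
          · omega
          · rw [← pow_mul, mul_comm (c + 5) 8]
            exact Nat.le_add_right _ _
      have e3 := NPX_est n (n ^ a) w k c2 j ((n ^ a) ^ c2 + c2) ((n ^ a) ^ 2) (hn2.trans hnN) hnN (by omega) (by omega) hkw rfl rfl
      have hG : 4 ≤ (n ^ a) ^ 2 := by
        calc 4 = 2 ^ 2 := by norm_num
          _ ≤ (n ^ a) ^ 2 := Nat.pow_le_pow_left (hn2.trans hnN) 2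
      obtain ⟨D, hD1, hD2, hD3⟩ := hONN n w (n ^ a) k l j (m (n ^ a)) ((n ^ a) ^ c2 + c2) ((n ^ a) ^ 2)
        ((n ^ a) ^ (c2 + 6)) (p (n ^ a)) f h hl1 hlk (hch.trans hMm) hG (NPX_prun hNCL hP) hsum e3
      refine ⟨D, hNCL.2.1 n _ _ _ hD1 ?_, hD2, hD3⟩
      rw [← pow_mul, ← pow_mul, ← mul_assoc]
      exact (Nat.pow_le_pow_right (by omega) (Nat.le_add_left _ _)).trans (Nat.le_add_right _ _)

end Pool.Agent.VVO
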